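import Pool.Agent.Helper32.KD2.Basic

/-! KD2-E1: no wrap around on the torus (MP_019250_an) -/

namespace KD.II.E1

open Finset MeasureTheory

theorem vma_cast {N : ℕ} [NeZero N] (m : ℤ) (h : 2 * |m| < (N : ℤ)) :
    ((m : ZMod N)).valMinAbs = m := by
  rw [ZMod.valMinAbs_spec]
  refine ⟨rfl, ?_, ?_⟩
  · have := neg_abs_le m
    linarith
  · have := le_abs_self m
    linarith

theorem vma_add {N : ℕ} [NeZero N] (i j : ZMod N)
    (h : 2 * (|i.valMinAbs| + |j.valMinAbs|) < (N : ℤ)) :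
    (i + j).valMinAbs = i.valMinAbs + j.valMinAbs := by
  have h1 : i + j = ((i.valMinAbs + j.valMinAbs : ℤ) : ZMod N) := by
    rw [Int.cast_add, ZMod.coe_valMinAbs, ZMod.coe_valMinAbs]
  rw [h1]
  apply vma_cast
  have := abs_add_le i.valMinAbs j.valMinAbs
  linarith

/-- one coordinate bounded by the cyclic `l¹` norm -/
theorem abs_le_n1 {d N : ℕ} (x : V d N) (i : Fin d) : |((x i).valMinAbs : ℝ)| ≤ n1 x := by
  unfold n1
  have h1 : |((x i).valMinAbs : ℝ)| = ((x i).valMinAbs.natAbs : ℝ) := by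
    rw [Nat.cast_natAbs, Int.cast_abs]
  rw [h1]
  exact Finset.single_le_sum (f := fun i => ((x i).valMinAbs.natAbs : ℝ))
    (fun _ _ => Nat.cast_nonneg _) (mem_univ i)

/-- one component of the shift bound -/
theorem shift_aux {d N : ℕ} [NeZero N] {c : ℝ} (hc : 0 < c) (x y : V d N)
    (hx : ‖c • rl x‖ ≤ 1 / 4) (h1 : 1 / c + 2 * n1 y < N) :
    ‖c • rl (x + y) - c • rl x‖ ≤ c * n1 y := by
  have hn : 0 ≤ n1 y := Finset.sum_nonneg fun _ _ => Nat.cast_nonneg _
  rw [pi_norm_le_iff_of_nonneg (mul_nonneg hc.le hn)]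
  intro i
  have hxi : |((x i).valMinAbs : ℝ)| ≤ 1 / 4 * (1 / c) := by
    have h2 := (norm_le_pi_norm (c • rl x) i).trans hx
    rw [Pi.smul_apply, smul_eq_mul, Real.norm_eq_abs, abs_mul, abs_of_pos hc] at h2
    have h3 : |((x i).valMinAbs : ℝ)| * c ≤ 1 / 4 := by
      rw [mul_comm]
      exact h2
    calc |((x i).valMinAbs : ℝ)| = |((x i).valMinAbs : ℝ)| * c * (1 / c) := by
          field_simp
      _ ≤ 1 / 4 * (1 / c) := mul_le_mul_of_nonneg_right h3 (by positivity)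
  have hyi := abs_le_n1 y i
  have hcpos : 0 < 1 / c := by positivity
  have hadd : (x i + y i).valMinAbs = (x i).valMinAbs + (y i).valMinAbs := by
    apply vma_add
    have h4 : (2 : ℝ) * (|((x i).valMinAbs : ℝ)| + |((y i).valMinAbs : ℝ)|) < N := by
      linarith
    exact_mod_cast h4
  have h5 : (c • rl (x + y) - c • rl x) i = c * ((y i).valMinAbs : ℝ) := by
    rw [Pi.sub_apply, Pi.smul_apply, Pi.smul_apply, smul_eq_mul, smul_eq_mul]
    unfold rl
    rw [Pi.add_apply, hadd, Int.cast_add]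
    ring
  rw [h5, Real.norm_eq_abs, abs_mul, abs_of_pos hc]
  exact mul_le_mul_of_nonneg_left hyi hc.le

/-- shift of the real coordinates without wrap around -/
theorem shift_bound {d N : ℕ} [NeZero N] {κ h : ℝ} (hκ : 0 < κ) (hh : 0 < h) (z w : GG d N)
    (hz : z ∈ win κ h) (h1 : 1 / (κ * h) + 2 * n1 w.1 < N) (h2 : 1 / h + 2 * n1 w.2 < N) :
    ‖px κ h (z + w) - px κ h z‖ ≤ κ * h * n1 w.1 ∧ ‖pv h (z + w) - pv h z‖ ≤ h * n1 w.2 := by
  obtain ⟨hz1, hz2⟩ := hz
  constructor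
  · unfold px at hz1 ⊢
    rw [norm_neg] at hz1
    have h3 := shift_aux (mul_pos hκ hh) z.1 w.1 hz1 h1
    have h4 : -((κ * h) • rl (z + w).1) - -((κ * h) • rl z.1) =
        -((κ * h) • rl (z.1 + w.1) - (κ * h) • rl z.1) := by
      rw [Prod.fst_add]
      abel
    rw [h4, norm_neg]
    exact h3
  · unfold pv at hz2 ⊢
    rw [Prod.snd_add]
    exact shift_aux hh z.2 w.2 hz2 h2

end KD.II.E1
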